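import Mathlib
import Pool.Agent.SBim.Eqv
import Pool.Agent.SBim.KLE
import Pool.Agent.PCan.Bridge
import Pool.Agent.PCan.NumFin

/-!
# MP_c7d2ee_al, Q1 (He): the `p`-canonical basis is not the Kazhdan-Lusztig basis for all
primes `p > |W|`

The group is `GL_28` with Weyl group `S_28 = Equiv.Perm (Fin 28)`.  There are a prime `q > |S_28|`, one of
two explicit primes, and an element `x` with `^q b_x ≠ b_x`.

The definitions are in `Pool/Agent/SBim/Defs.lean`: `IsKL b` says that `b` is the Kazhdan-Lusztig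
basis of the Hecke algebra of `S_(n+1)`; `IsPCanonical k x β` says that `β` is the character of the
indecomposable Soergel bimodule `B_x` over the field `k`, that is, the `p`-canonical basis element
`^p b_x`, `p = char k`.
-/

namespace Pool.Agent.Results.MP_c7d2ee_al.HeQuestion

open Pool.Agent.SBim

/-- There are a prime `q > |S_28|` and `x` in `S_28` with `^q b_x ≠ b_x`; `b` is the Kazhdan-Lusztig
basis and `pb` is the `q`-canonical basis (both exist and are unique). -/
theorem result : ∃ (q : ℕ) (_ : Fact q.Prime), Nat.card (Equiv.Perm (Fin 28)) < q ∧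
    (q = 8342918934096960643924208594911 ∨ q = 33 * 2 ^ 93 + 1) ∧
    ∃ b pb : Equiv.Perm (Fin 28) → (Equiv.Perm (Fin 28) → LaurentPolynomial ℤ),
      (∀ b', IsKL (n := 27) b' ↔ b' = b) ∧
      (∀ x β, IsPCanonical (n := 27) (ZMod q) x β ↔ β = pb x) ∧
      ∃ x, pb x ≠ b x := by
  obtain ⟨b, hb⟩ := PCan.kl_exists 27
  have hbu : ∀ b' : PCan.W 27 → PCan.Hk 27, IsKL (n := 27) b' ↔ b' = b :=
    fun b' => (kl_iff b').trans ⟨fun h => PCan.kl_unique h hb, fun h => h ▸ hb⟩
  have hcard : Nat.card (Equiv.Perm (Fin 28)) = Nat.factorial 28 := by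
    rw [Nat.card_perm, Nat.card_eq_fintype_card, Fintype.card_fin]
  have hne : (PCan.BS (ZMod PCan.pr1) (PCan.wd PCan.P0)).mult
        (PCan.up PCan.P0 * PCan.blk PCan.w0b) 24 ≠
      (PCan.BS (ZMod PCan.pr2) (PCan.wd PCan.P0)).mult
        (PCan.up PCan.P0 * PCan.blk PCan.w0b) 24 := by
    rw [PCan.mult_wit (PCan.xiv_inj PCan.pr1 (by decide +kernel)),
      PCan.mult_wit (PCan.xiv_inj PCan.pr2 (by decide +kernel))]
    have h1 := PCan.num_rank_p
    have h2 := PCan.num_rank_l
    omega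
  by_contra hcon
  have key : ∀ (q : ℕ) (_ : Fact q.Prime), Nat.factorial 28 < q →
      (q = 8342918934096960643924208594911 ∨ q = 33 * 2 ^ 93 + 1) →
        PCan.CanEqKL (ZMod q) b := by
    intro q hq hlt hqq x
    obtain ⟨pb, hpb⟩ := PCan.pcanonical_exists (ZMod q) 27
    have hpb' : ∀ (x : PCan.W 27) (β : PCan.Hk 27),
        IsPCanonical (n := 27) (ZMod q) x β ↔ β = pb x :=
      fun x β => (pcanonical_iff x β).trans (hpb x β)
    by_contra hx
    apply hcon
    refine ⟨q, hq, hcard ▸ hlt, hqq, b, pb, hbu, hpb', x, fun heq => hx ?_⟩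
    obtain ⟨c, hc, hc2⟩ := (hpb x (b x)).mpr heq.symm
    exact ⟨c, hc, fun y i => (hc2 y i).symm⟩
  have e1 : PCan.pr1 = 8342918934096960643924208594911 := by decide +kernel
  have e2 : PCan.pr2 = 33 * 2 ^ 93 + 1 := by decide +kernel
  exact hne (PCan.main_general (key PCan.pr1 inferInstance PCan.pr1_gt (Or.inl e1))
    (key PCan.pr2 inferInstance PCan.pr2_gt (Or.inr e2)) _ _ _)

end Pool.Agent.Results.MP_c7d2ee_al.HeQuestion
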